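import Pool.Agent.W2helper31.BE.Stm

/-!
# Piece CHEB of project BE
-/

set_option autoImplicit false

open MeasureTheory ProbabilityTheory

namespace Pool.Agent.W2helper98.BE

open Pool.Agent.W2helper31.BE

/-- the sum -/
def SS {n : ℕ} (a : Fin n → ℝ) (ε : Fin n → Bool) : ℝ := ∑ i, (if ε i then a i else -a i)

theorem sum_sq (n : ℕ) : ∀ a : Fin n → ℝ,
    ∑ ε : Fin n → Bool, SS a ε ^ 2 = 2 ^ n * ∑ i, a i ^ 2 := by
  induction n with
  | zero => intro a; simp [SS]
  | succ n ih =>
    intro a
    rw [← (Fin.consEquiv (fun _ : Fin (n + 1) => Bool)).sum_comp, Fintype.sum_prod_type,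
      Fintype.sum_bool]
    have h1 : ∀ ε : Fin n → Bool,
        SS a ((Fin.consEquiv (fun _ : Fin (n + 1) => Bool)) (true, ε)) =
          a 0 + SS (fun i => a i.succ) ε := by
      intro ε
      simp [SS, Fin.sum_univ_succ, Fin.consEquiv]
    have h2 : ∀ ε : Fin n → Bool,
        SS a ((Fin.consEquiv (fun _ : Fin (n + 1) => Bool)) (false, ε)) =
          -a 0 + SS (fun i => a i.succ) ε := by
      intro ε
      simp [SS, Fin.sum_univ_succ, Fin.consEquiv]
    simp only [h1, h2]
    rw [← Finset.sum_add_distrib]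
    have h3 : ∀ ε : Fin n → Bool, (a 0 + SS (fun i => a i.succ) ε) ^ 2 +
        (-a 0 + SS (fun i => a i.succ) ε) ^ 2 = 2 * a 0 ^ 2 +
          2 * SS (fun i => a i.succ) ε ^ 2 := fun ε => by ring
    simp only [h3]
    have h4 : ∑ ε : Fin n → Bool, 2 * SS (fun i => a i.succ) ε ^ 2 =
        2 * (2 ^ n * ∑ i, (a (Fin.succ i)) ^ 2) := by
      rw [← Finset.mul_sum, ih]
    rw [Finset.sum_add_distrib, h4, Finset.sum_const, Finset.card_univ,
      Fin.sum_univ_succ]
    simp only [Fintype.card_fun, Fintype.card_bool, Fintype.card_fin, nsmul_eq_mul]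
    push_cast
    ring

theorem flip {n : ℕ} (a : Fin n → ℝ) (ε : Fin n → Bool) :
    SS a (fun i => !ε i) = -SS a ε := by
  unfold SS
  rw [← Finset.sum_neg_distrib]
  refine Finset.sum_congr rfl fun i _ => ?_
  cases h : ε i <;> simp [h]

theorem cheb : P_CHEB := by
  classical
  intro n a t ht
  have hF : Flt a t = ((Finset.univ.filter (fun ε : Fin n → Bool => SS a ε < t)).card : ℝ) /
      2 ^ n := rfl
  rw [hF]
  set A := Finset.univ.filter (fun ε : Fin n → Bool => ¬ SS a ε < t) with hA
  set B := Finset.univ.filter (fun ε : Fin n → Bool => SS a ε ≤ -t) with hB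
  have hAB : A.card = B.card := by
    refine Finset.card_nbij' (fun ε i => !ε i) (fun ε i => !ε i) ?_ ?_ ?_ ?_
    · intro ε hε
      simp only [hA, hB, Finset.coe_filter, Finset.mem_univ, true_and, Set.mem_ofPred_eq,
        not_lt] at hε ⊢
      rw [flip]
      linarith
    · intro ε hε
      simp only [hA, hB, Finset.coe_filter, Finset.mem_univ, true_and, Set.mem_ofPred_eq,
        not_lt] at hε ⊢
      rw [flip]
      linarith
    · intro ε _
      funext i
      simp
    · intro ε _
      funext i
      simp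
  have hdis : Disjoint A B := by
    rw [Finset.disjoint_left]
    intro ε h1 h2
    simp only [hA, hB, Finset.mem_filter, Finset.mem_univ, true_and, not_lt] at h1 h2
    linarith
  have hle : ∑ ε ∈ A ∪ B, t ^ 2 ≤ ∑ ε : Fin n → Bool, SS a ε ^ 2 := by
    refine (Finset.sum_le_sum (g := fun ε => SS a ε ^ 2) fun ε hε => ?_).trans
      (Finset.sum_le_sum_of_subset_of_nonneg (Finset.subset_univ _) fun _ _ _ => sq_nonneg _)
    simp only [hA, hB, Finset.mem_union, Finset.mem_filter, Finset.mem_univ, true_and,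
      not_lt] at hε
    rcases hε with h | h <;> nlinarith
  rw [sum_sq, Finset.sum_const, Finset.card_union_of_disjoint hdis, ← hAB, nsmul_eq_mul] at hle
  have hcard : (Finset.univ.filter (fun ε : Fin n → Bool => SS a ε < t)).card + A.card =
      2 ^ n := by
    have := Finset.card_filter_add_card_filter_not (s := (Finset.univ : Finset (Fin n → Bool)))
      (fun ε => SS a ε < t)
    rw [hA]
    simpa using this
  have hcard' : ((Finset.univ.filter (fun ε : Fin n → Bool => SS a ε < t)).card : ℝ) =
      2 ^ n - A.card := by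
    have : ((Finset.univ.filter (fun ε : Fin n → Bool => SS a ε < t)).card : ℝ) + A.card =
        2 ^ n := by exact_mod_cast hcard
    linarith
  rw [hcard']
  have h2n : (0 : ℝ) < 2 ^ n := by positivity
  rw [le_div_iff₀ h2n]
  push_cast at hle
  have ht2 : 0 < 2 * t ^ 2 := by positivity
  have h5 : (A.card : ℝ) ≤ (∑ i, a i ^ 2) / (2 * t ^ 2) * 2 ^ n := by
    rw [div_mul_eq_mul_div, le_div_iff₀ ht2]
    linarith
  linarith

end Pool.Agent.W2helper98.BE
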